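import Mathlib
import Pool.Agent.TH841.FD.Main3
import Pool.Agent.TH841.FD.Covl

/-!
# Finite descent on the everywhere locally solvable quartics, for almost all coprime pairs

For integers `A`, `B` and a squarefree divisor `b₁` of `A B` consider the curve of genus one
`C : N² = b₁ M⁴ - (A + B) M² e² + (A B / b₁) e⁴`. Its étale double coverings (with the Jacobian
`y² = x (x - A) (x - B)`) are `D_d : b₁ M² - A e² = d x²`, `b₁ M² - B e² = b₁ d y²` (`N = d x y`), `d`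
a squarefree integer, and every 2-covering of `C` factors through one of the `D_d`. We prove that,
for every `D ≠ 0` and almost all the coprime pairs `(a, b)` of every short square (two independent
parameters), most of the curves `C` for `A = D a`, `B = D b` with points everywhere locally have no
`D_d` with points everywhere locally.
-/

set_option autoImplicit false

namespace Pool.Agent.Results.MP_d37f77_nt.QuarticsOfCoprimePairs

open Finset

/-- the curve `C : N² = b₁ M⁴ - (A + B) M² e² + (A B / b₁) e⁴` has a point over `K`, with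
`(M, e) ≠ (0, 0)` -/
def Solvable (K : Type) [Field K] (A B b₁ : ℤ) : Prop := ∃ N M e : K, (M ≠ 0 ∨ e ≠ 0) ∧
  N ^ 2 = (b₁ : K) * M ^ 4 + ((-(A + B) : ℤ) : K) * M ^ 2 * e ^ 2 +
    ((A * B / b₁ : ℤ) : K) * e ^ 4

/-- the squarefree `b₁ ∣ A B` for which `C` has points everywhere locally -/
def ELS (A B : ℤ) : Set ℤ := {b₁ | Squarefree b₁ ∧ b₁ ∣ A * B ∧ Solvable ℝ A B b₁ ∧
  ∀ (p : ℕ) [Fact p.Prime], Solvable ℚ_[p] A B b₁}

/-- the double covering `D_d` of `C` has a point over `K` -/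
def Covering (K : Type) [Field K] (A B b₁ d : ℤ) : Prop := ∃ M e x y : K, (M ≠ 0 ∨ e ≠ 0) ∧
  (b₁ : K) * M ^ 2 - (A : K) * e ^ 2 = (d : K) * x ^ 2 ∧
  (b₁ : K) * M ^ 2 - (B : K) * e ^ 2 = (b₁ : K) * d * y ^ 2

/-- the `b₁` in `ELS A B` for which some covering `D_d` has points everywhere locally -/
def ELSCovered (A B : ℤ) : Set ℤ := {b₁ | b₁ ∈ ELS A B ∧ ∃ d : ℤ, Squarefree d ∧
  Covering ℝ A B b₁ d ∧ ∀ (p : ℕ) [Fact p.Prime], Covering ℚ_[p] A B b₁ d}

/-- `(log X) ^ (δ - (3 / 2) log 2)` -/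
noncomputable def bound (δ : ℝ) (X : ℕ) : ℝ := (Real.log X) ^ (δ - 3 / 2 * Real.log 2)

open Classical in
/-- **Theorem.** (1) If `C` has a rational point and `b₁ ∈ ELS A B`, then `b₁ ∈ ELSCovered A B`.
(2) Let `D ≠ 0`. For all `δ, ε > 0` and `L` there is `X₀` such that for `X ≥ X₀` and
`|N₁|, |N₂| ≤ X ^ L` all the coprime pairs `(a, b)` of integers `N₁ < a ≤ N₁ + X`,
`N₂ < b ≤ N₂ + X` with at most `ε X ^ 2` exceptions satisfy, for `A = D a` and `B = D b`: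
`A`, `B`, `A - B` are nonzero, `#ELSCovered A B ≤ (log X) ^ (δ - (3 / 2) log 2) * #ELS A B`, and
`#ELS A B ≥ (log X) ^ ((3 / 2) log 2 - δ)`. -/
theorem result :
    (∀ A B b₁ : ℤ, A ≠ B → b₁ ∈ ELS A B → Solvable ℚ A B b₁ → b₁ ∈ ELSCovered A B) ∧
    ∀ (D : ℤ) (_ : D ≠ 0) (δ ε : ℝ) (L : ℕ) (_ : 0 < δ) (_ : 0 < ε),
    ∃ X₀ : ℕ, ∀ (N₁ N₂ : ℤ) (X : ℕ), X₀ ≤ X → |N₁| ≤ (X : ℤ) ^ L → |N₂| ≤ (X : ℤ) ^ L →
      (((Ioc N₁ (N₁ + (X : ℤ)) ×ˢ Ioc N₂ (N₂ + (X : ℤ))).filter (fun t : ℤ × ℤ =>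
        IsCoprime t.1 t.2 ∧ ¬ ∀ A B : ℤ, A = D * t.1 → B = D * t.2 →
        A ≠ 0 ∧ B ≠ 0 ∧ A ≠ B ∧
        ((ELSCovered A B).ncard : ℝ) ≤ bound δ X * ((ELS A B).ncard : ℝ) ∧
        (Real.log X) ^ (3 / 2 * Real.log 2 - δ) ≤ ((ELS A B).ncard : ℝ))).card : ℝ) ≤
        ε * X ^ 2 := by
  refine ⟨fun A B b₁ hAB hs hr => Pool.Agent.TH841.FD.rat_mem hAB hs hr, ?_⟩
  intro D hD δ ε L hδ hε
  obtain ⟨X1, h1⟩ := Pool.Agent.TH841.FD.pairs_ae Pool.Agent.TH841.FD.COVLf.covl D hD δ ε L hδ hε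
  refine ⟨X1 + 3, fun N₁ N₂ X hX hN₁ hN₂ => ?_⟩
  have e1 : N₁.natAbs ≤ X ^ L := by
    have : (N₁.natAbs : ℤ) ≤ (X : ℤ) ^ L := by rw [Int.natCast_natAbs]; exact hN₁
    exact_mod_cast this
  have e2 : N₂.natAbs ≤ X ^ L := by
    have : (N₂.natAbs : ℤ) ≤ (X : ℤ) ^ L := by rw [Int.natCast_natAbs]; exact hN₂
    exact_mod_cast this
  refine le_trans ?_ (h1 N₁ N₂ X (by omega) e1 e2)
  refine Nat.cast_le.2 ?_
  refine card_le_card_of_injOn (fun t : ℤ × ℤ => ((t.1 - N₁).toNat, (t.2 - N₂).toNat)) ?_ ?_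
  · intro t ht
    rw [mem_coe, mem_filter, mem_product, mem_Ioc, mem_Ioc] at ht
    obtain ⟨⟨⟨a1, a2⟩, a3, a4⟩, a5, a6⟩ := ht
    have b1 : N₁ + (((t.1 - N₁).toNat : ℕ) : ℤ) = t.1 := by omega
    have b2 : N₂ + (((t.2 - N₂).toNat : ℕ) : ℤ) = t.2 := by omega
    rw [mem_coe, mem_filter, mem_product, mem_Icc, mem_Icc]
    refine ⟨⟨⟨?_, ?_⟩, ?_, ?_⟩, ?_, ?_⟩
    · show 1 ≤ (t.1 - N₁).toNat
      omega
    · show (t.1 - N₁).toNat ≤ X
      omega
    · show 1 ≤ (t.2 - N₂).toNat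
      omega
    · show (t.2 - N₂).toNat ≤ X
      omega
    · show IsCoprime (N₁ + (((t.1 - N₁).toNat : ℕ) : ℤ)) (N₂ + (((t.2 - N₂).toNat : ℕ) : ℤ))
      rw [b1, b2]
      exact a5
    · intro hall
      apply a6
      intro A B hA hB
      obtain ⟨c1, c2, c3, c4⟩ := hall A B (by
        show A = D * (N₁ + (((t.1 - N₁).toNat : ℕ) : ℤ))
        rw [b1, hA]) (by
        show B = D * (N₂ + (((t.2 - N₂).toNat : ℕ) : ℤ))
        rw [b2, hB])
      have c4' : ((ELSCovered A B).ncard : ℝ) ≤ bound δ X * ((ELS A B).ncard : ℝ) := c4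
      refine ⟨c1, c2, c3, c4', ?_⟩
      have hone : (1 : ℤ) ∈ ELS A B := by
        refine ⟨squarefree_one, one_dvd _, ⟨1, 1, 0, Or.inl one_ne_zero, ?_⟩, fun p _ =>
          ⟨1, 1, 0, Or.inl one_ne_zero, ?_⟩⟩
        · push_cast
          ring
        · push_cast
          ring
      have hc : (1 : ℤ) ∈ ELSCovered A B := Pool.Agent.TH841.FD.rat_mem c3 hone
        ⟨1, 1, 0, Or.inl one_ne_zero, by push_cast; ring⟩
      have hfin : (ELS A B).Finite := Pool.Agent.TH841.NO.sq_finite (a := -(A + B)) (mul_ne_zero c1 c2)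
      have hfin' : (ELSCovered A B).Finite := hfin.subset fun x hx => hx.1
      have h3 : 1 ≤ (ELSCovered A B).ncard := by
        rw [Nat.one_le_iff_ne_zero, Ne, Set.ncard_eq_zero hfin']
        exact (Set.nonempty_of_mem hc).ne_empty
      have h4 : (1 : ℝ) ≤ bound δ X * ((ELS A B).ncard : ℝ) :=
        le_trans (by exact_mod_cast h3) c4'
      have hlog : 0 < Real.log X := Real.log_pos (by
        have : 3 ≤ X := by omega
        have : (3 : ℝ) ≤ X := by exact_mod_cast this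
        linarith)
      have h5 : (Real.log X) ^ (3 / 2 * Real.log 2 - δ) * bound δ X = 1 := by
        unfold bound
        rw [← Real.rpow_add hlog]
        norm_num
      have h6 : 0 < (Real.log X) ^ (3 / 2 * Real.log 2 - δ) := Real.rpow_pos_of_pos hlog _
      calc (Real.log X) ^ (3 / 2 * Real.log 2 - δ)
          = (Real.log X) ^ (3 / 2 * Real.log 2 - δ) * 1 := by ring
        _ ≤ (Real.log X) ^ (3 / 2 * Real.log 2 - δ) * (bound δ X * ((ELS A B).ncard : ℝ)) :=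
            mul_le_mul_of_nonneg_left h4 h6.le
        _ = ((Real.log X) ^ (3 / 2 * Real.log 2 - δ) * bound δ X) * ((ELS A B).ncard : ℝ) := by
            ring
        _ = _ := by rw [h5, one_mul]
  · intro s hs t ht hst
    rw [mem_coe, mem_filter, mem_product, mem_Ioc, mem_Ioc] at hs ht
    obtain ⟨⟨⟨a1, a2⟩, a3, a4⟩, -⟩ := hs
    obtain ⟨⟨⟨b1, b2⟩, b3, b4⟩, -⟩ := ht
    have h7 : ((s.1 - N₁).toNat, (s.2 - N₂).toNat) = ((t.1 - N₁).toNat, (t.2 - N₂).toNat) := hst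
    rw [Prod.mk.injEq] at h7
    ext
    · omega
    · omega

end Pool.Agent.Results.MP_d37f77_nt.QuarticsOfCoprimePairs
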