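import Mathlib
import Pool.Agent.Y488.TM.MainL
import Pool.Agent.Y488.TM.ExA
import Pool.Agent.Y488.TM.ExB

/-!
# 2-descent on almost all quadratic twists, mixed factors

Let `f k ∈ ℤ[x]` be irreducible over `ℚ`, pairwise non-associated, of even total degree, at least
four of them of odd degree, and let `F k` be the homogenisations.  Under a condition on the linear
factors (empty if there are none), for all squarefree `d`, `|d| ≤ X`, with at most
`C X (log X)^(-δ)` exceptions, every covering `D δ : F k (x, w) = δ k * y k ^ 2` of the curve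
`C d : d y² = ∏ k, F k (x, w)` with points everywhere locally lies over a rational Weierstrass point
of `C d`, so it has a rational point.  If no factor is linear, there is no such covering.  The curves
`d y² = (x² + x + 1)(x³ - 2)(x³ - 3)(x³ - 5)(x³ - 19)` of genus 6 have points everywhere locally
for all `d`.

The case of factors of even degree is in the starting library (AlmostAllTwists, project TW).  For
factors of odd degree the coverings `D δ` and `D (δ * λ ^ deg)` are isomorphic, which gives twice as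
many sign patterns at the primes dividing `d`; the method still works for at least four factors of
odd degree.
-/

set_option autoImplicit false

namespace Pool.Agent.Results.MP_d37f77_nt.TwoDescentMixedFactors

open Finset Polynomial

/-- the homogenisation `F(x, w) = ∑ i, a i * x ^ i * w ^ (n - i)` of `f = ∑ i, a i * x ^ i`,
`n = deg f` -/
noncomputable def hom (f : ℤ[X]) {R : Type*} [CommRing R] (x w : R) : R :=
  ∑ i ∈ range (f.natDegree + 1), (f.coeff i : R) * x ^ i * w ^ (f.natDegree - i)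

section K

variable {K : Type} [Fintype K] [DecidableEq K]

/-- the indices of the factors of odd degree -/
def Od (f : K → ℤ[X]) : Finset K := univ.filter (fun k => Odd (f k).natDegree)

/-- the indices of the linear factors -/
def Ln (f : K → ℤ[X]) : Finset K := univ.filter (fun k => (f k).natDegree = 1)

/-- the value of `F k` at the zero `(-b, a)` of the linear form `F i = a x + b w` -/
noncomputable def val (f : K → ℤ[X]) (i k : K) : ℤ :=
  hom (f k) (-(f i).coeff 0) ((f i).coeff 1)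

/-- the factors are irreducible over `ℚ`, pairwise non-associated, of even total degree, and at
least four of them have odd degree -/
def Factors (f : K → ℤ[X]) : Prop :=
  (∀ k, Irreducible ((f k).map (Int.castRingHom ℚ))) ∧
  (∀ k l, k ≠ l →
    ¬ Associated ((f k).map (Int.castRingHom ℚ)) ((f l).map (Int.castRingHom ℚ))) ∧
  Even (∑ k, (f k).natDegree) ∧ 4 ≤ (Od f).card

/-- the condition on the linear factors: for any two linear factors `i ≠ k` there is a product
`F T`, `T ⊆ K \ {i, k}`, of even degree, whose values at the zeros of `F i`, `F k` are not in the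
same square class; if there are exactly four factors of odd degree, and these are linear, then there
are two of them, `i` and `k`, and a product `F T` of factors of even degree with this property -/
def General (f : K → ℤ[X]) : Prop :=
  (∀ i ∈ Ln f, ∀ k ∈ Ln f, i ≠ k → ∃ T : Finset K, i ∉ T ∧ k ∉ T ∧ Even (T ∩ Od f).card ∧
    ¬ IsSquare (∏ l ∈ T, (val f i l * val f k l))) ∧
  ((Od f).card = 4 → Od f ⊆ Ln f → ∃ i ∈ Od f, ∃ k ∈ Od f, ∃ T : Finset K,
    Disjoint T (Od f) ∧ ¬ IsSquare (∏ l ∈ T, (val f i l * val f k l)))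

/-- the curve `C d : d * y ^ 2 = ∏ k, F k (x, w)` has a point over the field `L` -/
def CurveHasPoint (f : K → ℤ[X]) (d : ℤ) (L : Type) [Field L] : Prop :=
  ∃ x w y : L, (x ≠ 0 ∨ w ≠ 0) ∧ d * y ^ 2 = ∏ k, hom (f k) x w

/-- the curve `D δ : F k (x, w) = δ k * y k ^ 2` (all `k`) has a point over the field `L` -/
def CoveringHasPoint (f : K → ℤ[X]) (δ : K → ℤ) (L : Type) [Field L] : Prop :=
  ∃ x w : L, (x ≠ 0 ∨ w ≠ 0) ∧ ∀ k, ∃ y : L, hom (f k) x w = δ k * y ^ 2

/-- `D δ` is a covering of `C d` (`d * ∏ k, δ k` is a square) with points everywhere locally -/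
def Soluble (f : K → ℤ[X]) (d : ℤ) (δ : K → ℤ) : Prop :=
  (∀ k, δ k ≠ 0) ∧ IsSquare (d * ∏ k, δ k) ∧ CoveringHasPoint f δ ℝ ∧
    ∀ (p : ℕ) [Fact p.Prime], CoveringHasPoint f δ ℚ_[p]

/-- the covering `D δ` is of constant type: for some linear factor `i` with zero `P` and all
products `F T` of even degree, `i ∉ T`, the number `δ T * F T (P)` is a square -/
def ConstantType (f : K → ℤ[X]) (δ : K → ℤ) : Prop :=
  ∃ i, (f i).natDegree = 1 ∧ ∀ T : Finset K, i ∉ T → Even (∑ k ∈ T, (f k).natDegree) →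
    IsSquare (∏ k ∈ T, (δ k * val f i k))

end K

/-- `X² + X + 1`, `X³ - 2`, `X³ - 3`, `X³ - 5`, `X³ - 19` -/
noncomputable def ex : Fin 5 → ℤ[X] :=
  ![X ^ 2 + X + 1, X ^ 3 - 2, X ^ 3 - 3, X ^ 3 - 5, X ^ 3 - 19]

theorem result :
    (∀ (K : Type) [Fintype K] [DecidableEq K] (f : K → ℤ[X]), Factors f → General f →
      (∃ ε : ℝ, 0 < ε ∧ ∃ C : ℝ, ∀ X : ℕ, 3 ≤ X →
        ({d : ℤ | d.natAbs ≤ X ∧ Squarefree d ∧
          ∃ δ : K → ℤ, Soluble f d δ ∧ ¬ ConstantType f δ}.ncard : ℝ) ≤
            C * X * (Real.log X) ^ (-ε)) ∧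
      ∀ δ : K → ℤ, (∀ k, δ k ≠ 0) → ConstantType f δ → CoveringHasPoint f δ ℚ) ∧
    (∀ (K : Type) [Fintype K] [DecidableEq K] (f : K → ℤ[X]), Factors f →
      (∀ k, (f k).natDegree ≠ 1) →
      (∃ ε : ℝ, 0 < ε ∧ ∃ C : ℝ, ∀ X : ℕ, 3 ≤ X →
        ({d : ℤ | d.natAbs ≤ X ∧ Squarefree d ∧ ∃ δ : K → ℤ, Soluble f d δ}.ncard : ℝ) ≤
            C * X * (Real.log X) ^ (-ε)) ∧
      ∀ d : ℤ, CurveHasPoint f d ℚ → ∃ δ : K → ℤ, Soluble f d δ) ∧
    (Factors ex ∧ (∀ k, (ex k).natDegree ≠ 1) ∧
      ∀ d : ℤ, CurveHasPoint ex d ℝ ∧ ∀ (p : ℕ) [Fact p.Prime], CurveHasPoint ex d ℚ_[p]) := by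
  have hyp0 : ∀ (K : Type) [Fintype K] [DecidableEq K] (f : K → ℤ[X]), Factors f →
      (∀ k, (f k).natDegree ≠ 1) → Pool.Agent.Y488.TM.Hyp f := by
    intro K _ _ f hF hl
    have hLn : Ln f = ∅ := by
      unfold Ln
      rw [filter_eq_empty_iff]
      exact fun k _ => hl k
    refine ⟨hF.1, hF.2.1, hF.2.2.1, hF.2.2.2, fun i hi => ?_, fun h4 hs => ?_⟩
    · exact absurd (show i ∈ Ln f from hi) (by rw [hLn]; exact notMem_empty i)
    · exfalso
      have h1 : Od f ⊆ Ln f := hs
      rw [hLn, subset_empty] at h1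
      have h2 : (Od f).card = 4 := h4
      rw [h1, card_empty] at h2
      omega
  refine ⟨fun K _ _ f hF hG => ⟨?_, ?_⟩, fun K _ _ f hF hl => ⟨?_, fun d hd => ?_⟩, ?_⟩
  · have hH : Pool.Agent.Y488.TM.Hyp f := ⟨hF.1, hF.2.1, hF.2.2.1, hF.2.2.2, hG.1, hG.2⟩
    obtain ⟨ε, hε, C, hC⟩ := Pool.Agent.Y488.TM.mainl f hH
    refine ⟨ε, hε, C, fun X hX => le_trans ?_ (hC X hX)⟩
    refine Nat.cast_le.2 (Set.ncard_le_ncard ?_ (Pool.Agent.TH213.SP.fin_le X _))
    rintro d ⟨h1, h2, δ, ⟨h3, h4, -, h5⟩, h6⟩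
    exact ⟨h1, h2, δ, h3, h4, fun p _ => h5 p, h6⟩
  · intro δ hδ h
    have h1 := (Pool.Agent.Y488.TM.linm K f hF.1 hF.2.1).1
    exact Pool.Agent.Y488.TM.pt_of_const f (le_trans (by norm_num) hF.2.2.2) h1 hδ h
  · obtain ⟨ε, hε, C, hC⟩ := Pool.Agent.Y488.TM.mainl f (hyp0 K f hF hl)
    refine ⟨ε, hε, C, fun X hX => le_trans ?_ (hC X hX)⟩
    refine Nat.cast_le.2 (Set.ncard_le_ncard ?_ (Pool.Agent.TH213.SP.fin_le X _))
    rintro d ⟨h1, h2, δ, h3, h4, -, h5⟩
    refine ⟨h1, h2, δ, h3, h4, fun p _ => h5 p, ?_⟩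
    rintro ⟨i, hi, -⟩
    exact hl i hi
  · refine Pool.Agent.W262.TW.sel_of_point f hF.1 (fun k => ?_) hd
    have e1 : ((f k).map (Int.castRingHom ℚ)).natDegree = (f k).natDegree :=
      natDegree_map_eq_of_injective (RingHom.injective_int (Int.castRingHom ℚ)) _
    have e2 : 0 < ((f k).map (Int.castRingHom ℚ)).natDegree := (hF.1 k).natDegree_pos
    have e3 := hl k
    omega
  · obtain ⟨a1, a2, a3, a4⟩ := Pool.Agent.Y488.TM.exa
    obtain ⟨b1, b2⟩ := Pool.Agent.Y488.TM.exb
    have d0 : (ex 0).natDegree = 2 := a3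
    have d1 : (ex 1).natDegree = 3 := a4 1 (by decide)
    have d2 : (ex 2).natDegree = 3 := a4 2 (by decide)
    have d3 : (ex 3).natDegree = 3 := a4 3 (by decide)
    have d4 : (ex 4).natDegree = 3 := a4 4 (by decide)
    have hom0 : ∀ {L : Type} [Field L] (x : L), x ^ 2 + x + 1 = 0 → hom (ex 0) x 1 = 0 := by
      intro L _ x hx
      have e : ex 0 = X ^ 2 + X + 1 := rfl
      unfold hom
      rw [d0, sum_range_succ, sum_range_succ, sum_range_one, e]
      simp only [coeff_add, coeff_X_pow, coeff_X, coeff_one]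
      norm_num
      linear_combination hx
    have hom4 : ∀ {L : Type} [Field L] (x : L), x ^ 3 = 19 → hom (ex 4) x 1 = 0 := by
      intro L _ x hx
      have e : ex 4 = X ^ 3 - C 19 := by
        change (X ^ 3 - 19 : ℤ[X]) = _
        simp
      unfold hom
      rw [d4, sum_range_succ, sum_range_succ, sum_range_succ, sum_range_one, e]
      simp only [coeff_sub, coeff_X_pow, coeff_C]
      norm_num
      linear_combination hx
    have pt : ∀ {L : Type} [Field L] (d : ℤ) (x : L) (k : Fin 5), hom (ex k) x 1 = 0 →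
        CurveHasPoint ex d L := by
      intro L _ d x k h
      refine ⟨x, 1, 0, Or.inr one_ne_zero, ?_⟩
      rw [prod_eq_zero (mem_univ k) h]
      ring
    refine ⟨⟨a1, a2, ?_, ?_⟩, ?_, fun d => ⟨?_, fun p _ => ?_⟩⟩
    · rw [Fin.sum_univ_five, d0, d1, d2, d3, d4]
      decide
    · have h : ({1, 2, 3, 4} : Finset (Fin 5)) ⊆ Od ex := by
        intro k hk
        unfold Od
        rw [mem_filter]
        refine ⟨mem_univ _, ?_⟩
        rw [a4 k (by rintro rfl; revert hk; decide) |> (fun h : (ex k).natDegree = 3 => h)]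
        decide
      exact card_le_card h
    · intro k hk
      by_cases h0 : k = 0
      · subst h0
        rw [d0] at hk
        omega
      · have h3 : (ex k).natDegree = 3 := a4 k h0
        rw [h3] at hk
        omega
    · obtain ⟨x, hx⟩ := b1
      exact pt d x 4 (hom4 x hx)
    · rcases b2 p with ⟨x, hx⟩ | ⟨x, hx⟩
      · exact pt d x 0 (hom0 x hx)
      · exact pt d x 4 (hom4 x hx)

end Pool.Agent.Results.MP_d37f77_nt.TwoDescentMixedFactors
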